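import Pool.Agent.Q284.TW.Laws

/-!
# One abelian extension and one finitely generated group govern the edge line of all tensor constructions and all abelian twists

Let `M` be a pure motive over a number field `K` (for instance over `K = ℚ`), normalised to weight zero, with the (unitary) Frobenius
eigenvalues `α_{1,v}, ..., α_{r,v}` at the good primes.  For `k ∈ ℤ^r` let `L_k(s)` be the Euler product over the `r!` numbers
`α_{w(1),v}^{k_1} ⋯ α_{w(r),v}^{k_r}`, `w ∈ S_r`.  These functions are products of integral powers of the `L`-functions of the motives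
`T(M)`, where `T` runs through the tensor constructions (Schur functors and their duals), and `L_k(χ, s)`, the Euler product twisted
with a character `χ` of finite order of the absolute Galois group `G_K`, is the same combination of the functions
`L(T(M) ⊗ χ, s)`, the `L`-functions of the motives `T(M) ⊗ [χ]`.

The question asks for the meromorphic continuation of the `L`-functions of all motives, and for the absence of poles.  Suppose
that all the `L_k(χ, s)` have a meromorphic continuation to a neighbourhood of the edge line `Re s = 1` (or only of the points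
`1 + iτ` with `τ` in a subgroup `Θ` of `ℝ`, for instance only of the point `s = 1`).  The theorem of this file restricts the zeros and the
poles on this line for all the infinitely many motives `T(M) ⊗ [χ]` simultaneously: there are one finite abelian extension `K₀`
of `K` and one finitely generated subgroup `A` of `Θ` such that `L_k(χ, s)` has a zero or a pole at `1 + iτ` at most for characters
`χ` of `Gal(K₀/K)` and `τ ∈ A`, for all `k`.  For fixed `k` the sum of the squares of the orders, over all pairs `(χ, τ)`, is at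
most `n²`, where `n` is the number of factors (`n = r!` above).

The last assertion is about the distribution of the primes: let `L/K` be any finite abelian extension.  Then the Frobenius classes of
`M` do not see the difference between two Artin symbols in `Gal(L/K)` with the same restriction to `L ∩ K₀`.  In particular the
Frobenius classes of `M` and the Artin symbols in `L` are independent for all abelian extensions `L` of `K` which are linearly
disjoint from the one field `K₀`; and if the Frobenius classes are equidistributed over `K₀`, jointly with the Artin symbols, then this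
is true over all finite abelian extensions of `K`.

We prove this for arbitrary systems of `n` points `x_{i,v}` of a torus `(ℝ/ℤ)^r`, and
`L_k(χ, s) = ∏_v ∏_i (1 - e(⟨k, x_{i,v}⟩) χ(Frob_v) q_v^{-s})⁻¹`; this contains the case of arbitrary compact connected groups (take for
`x_{i,v}` the Weyl orbit of the Frobenius class in a maximal torus).

Proof.  The order `-φ(k, χ, τ)` of `L_k(χ, s)` at `1 + iτ` is the negative of the mean value of
`∑_i e(⟨k, x_{i,v}⟩) χ(Frob_v) q_v^{-iτ}`.  So `φ` is a positive definite function with integer values on the discrete group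
`Λ = ℤ^r × X × Θ`, where `X` is the group of the characters of finite order, and `φ(0, χ, τ) = 0` for `(χ, τ) ≠ 0` (Hecke,
Chebotarev).  By the theorem on positive definite functions with integer values (a version of Cohen's idempotent theorem, file
`Pool.Agent.Q284.CP.Coh`), `φ` is a finite sum of such functions `ψ_j`, each of them periodic with respect to a group `G_j` and with
finite support modulo `G_j`.  The group `G_j ∩ (X × Θ)` has at most `n` elements, hence `G_j` is finitely generated, and the support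
of `φ` generates a finitely generated group.
-/

set_option autoImplicit false
set_option linter.unusedSectionVars false

namespace Pool.Agent.Results.MP_148101_nt.GoverningTwists

open NumberField IsDedekindDomain Filter Topology UnitAddTorus
open Pool.Agent.W401.Cheb (GK IsFrob)

section

variable {K : Type} [Field K] [NumberField K]

/-- The norm of a prime. -/
noncomputable def q (v : HeightOneSpectrum (𝓞 K)) : ℕ := Ideal.absNorm v.asIdeal

/-- `φ` has the mean value `c`, in the sense of the Dirichlet density. -/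
def HasMean (φ : HeightOneSpectrum (𝓞 K) → ℝ) (c : ℝ) : Prop :=
  Tendsto (fun ε : ℝ => (∑' v, φ v * (q v : ℝ) ^ (-(1 + ε))) / ∑' v, (q (K := K) v : ℝ) ^ (-(1 + ε)))
    (𝓝[>] 0) (𝓝 c)

/-- `φ` has the mean value `c`, in the sense of the natural density. -/
def HasAverage (φ : HeightOneSpectrum (𝓞 K) → ℝ) (c : ℝ) : Prop :=
  Tendsto (fun N : ℕ => (∑ᶠ v : {v : HeightOneSpectrum (𝓞 K) // q v ≤ N}, φ v.1) /
    (Nat.card {v : HeightOneSpectrum (𝓞 K) // q v ≤ N} : ℝ)) atTop (𝓝 c)

/-- `χ` is a character of finite order of the absolute Galois group `G_K`: its kernel is open. -/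
def IsFiniteOrder (χ : GK K →* Circle) : Prop := IsOpen (χ.ker : Set (GK K))

/-- `V` is the group of a finite abelian extension of `K`: an open subgroup of `G_K` which contains all commutators. -/
def IsAbelianExtension (V : Subgroup (GK K)) : Prop :=
  IsOpen (V : Set (GK K)) ∧ commutator (GK K) ≤ V

open Classical in
/-- The indicator function of the coset `g V`.  If `V` is the group of the abelian extension `L` of `K`, and `s` is a Frobenius
element at `v`, this means that the Artin symbol of `v` is the restriction of `g` to `L`. -/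
noncomputable def symbol (V : Subgroup (GK K)) (g s : GK K) : ℝ := if g⁻¹ * s ∈ V then 1 else 0

variable {r : ℕ} {ι : Type} [Fintype ι]
  (x : ι → HeightOneSpectrum (𝓞 K) → UnitAddTorus (Fin r))
  (σ : HeightOneSpectrum (𝓞 K) → GK K)

/-- The Euler product `L_k(χ, s) = ∏_v ∏_i (1 - e(⟨k, x_{i,v}⟩) χ(σ_v) q_v^{-s})⁻¹`; here `mFourier k y = e(⟨k, y⟩)` is the character
of the torus with the index `k`, and `σ_v` a Frobenius element at `v`. -/
noncomputable def eulerL (k : Fin r → ℤ) (χ : GK K →* Circle) (s : ℂ) : ℂ :=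
  ∏' v, (∏ i, (1 - mFourier k (x i v) * (χ (σ v) : ℂ) * (q v : ℂ) ^ (-s)))⁻¹

/-- `Λ` is a meromorphic continuation of `L_k(χ, s)` to a neighbourhood of `1 + iτ`. -/
def IsContinuation (k : Fin r → ℤ) (χ : GK K →* Circle) (τ : ℝ) (Λ : ℂ → ℂ) : Prop :=
  MeromorphicAt Λ (1 + τ * Complex.I) ∧
    ∀ᶠ s in 𝓝 ((1 : ℂ) + τ * Complex.I), (1 : ℝ) < s.re → Λ s = eulerL x σ k χ s

end

section Bridge

open Pool.Agent.Q284.IM Pool.Agent.Q284.CP Pool.Agent.TH553.ST Pool.Agent.TH553.RS
  Pool.Agent.W540.BE Pool.Agent.Q284.TW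

variable {K : Type} [Field K] [NumberField K]

theorem mean_iff {φ : HeightOneSpectrum (𝓞 K) → ℝ} {c : ℝ} :
    HasMean φ c ↔ Tendsto (dm φ) (𝓝[>] 0) (𝓝 c) := by
  unfold HasMean
  have : (fun ε : ℝ => (∑' v, φ v * (q v : ℝ) ^ (-(1 + ε))) /
      ∑' v, (q (K := K) v : ℝ) ^ (-(1 + ε))) = dm φ := by
    funext ε
    unfold dm EP
    simp only [one_mul]
    rfl
  rw [this]

theorem avg_iff {φ : HeightOneSpectrum (𝓞 K) → ℝ} {c : ℝ} :
    HasAverage φ c ↔ Tendsto (mn φ) atTop (𝓝 c) := by
  unfold HasAverage
  have : (fun N : ℕ => (∑ᶠ v : {v : HeightOneSpectrum (𝓞 K) // q v ≤ N}, φ v.1) /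
      (Nat.card {v : HeightOneSpectrum (𝓞 K) // q v ≤ N} : ℝ)) = mn φ := by
    funext N
    have hs : ∀ v, v ∈ upto K N ↔ q v ≤ N := fun v => mem_upto
    let e : {v : HeightOneSpectrum (𝓞 K) // q v ≤ N} ≃ (upto K N) :=
      Equiv.subtypeEquivRight fun v => (hs v).symm
    have hfin : Finite {v : HeightOneSpectrum (𝓞 K) // q v ≤ N} := Finite.of_equiv _ e.symm
    unfold mn
    have h1 : (∑ᶠ v : {v : HeightOneSpectrum (𝓞 K) // q v ≤ N}, φ v.1) = ∑ v ∈ upto K N, φ v := by
      rw [← Finset.sum_coe_sort, ← finsum_eq_sum_of_fintype, ← finsum_comp_equiv e]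
      rfl
    have h2 : Nat.card {v : HeightOneSpectrum (𝓞 K) // q v ≤ N} = (upto K N).card := by
      rw [Nat.card_congr e, Nat.card_eq_fintype_card, Fintype.card_coe]
    rw [h1, h2, smul_eq_mul, div_eq_inv_mul]
  rw [this]

variable {r : ℕ} {ι : Type} [Fintype ι] (x : ι → HeightOneSpectrum (𝓞 K) → UnitAddTorus (Fin r))
  (σ : HeightOneSpectrum (𝓞 K) → GK K)

/-- the points, numbered -/
noncomputable def num (i : Fin (Fintype.card ι)) : HeightOneSpectrum (𝓞 K) → UnitAddTorus (Fin r) :=
  x ((Fintype.equivFin ι).symm i)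

theorem sum_num (f : UnitAddTorus (Fin r) → ℝ) (v : HeightOneSpectrum (𝓞 K)) :
    ∑ i, f (num x i v) = ∑ i, f (x i v) :=
  Equiv.sum_comp (Fintype.equivFin ι).symm fun i => f (x i v)

theorem eulerL_eq (k : Fin r → ℤ) (χ : GK K →* Circle) (s : ℂ) :
    eulerL x σ k χ s = EL (tw (num x) σ k χ) s := by
  unfold eulerL EL
  refine tprod_congr fun v => ?_
  congr 1
  exact (Equiv.prod_comp (Fintype.equivFin ι).symm fun i =>
    1 - mFourier k (x i v) * (χ (σ v) : ℂ) * (q v : ℂ) ^ (-s)).symm

theorem ce_iff {k : Fin r → ℤ} {χ : GK K →* Circle} {τ : ℝ} {Λ : ℂ → ℂ} :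
    IsContinuation x σ k χ τ Λ ↔ Ce (tw (num x) σ k χ) τ Λ := by
  unfold IsContinuation Ce
  simp only [eulerL_eq]

end Bridge

/-- **One abelian extension and one finitely generated group govern the edge line.**  Let `K` be a number field, let
`x_{i,v} ∈ (ℝ/ℤ)^r`, `i ∈ ι`, be `n = |ι| ≥ 1` points and `σ_v ∈ G_K` a Frobenius element for every prime `v` of `K`, and let `Θ` be a
subgroup of `ℝ` (for `Θ = 0` only the point `s = 1` is considered, for `Θ = ℝ` the whole edge line).  Suppose that the Euler products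
`L_k(χ, s) = ∏_v ∏_i (1 - e(⟨k, x_{i,v}⟩) χ(σ_v) q_v^{-s})⁻¹` have meromorphic continuations to neighbourhoods of the points `1 + iτ`,
for all `k ∈ ℤ^r`, all characters `χ` of finite order of `G_K` and all `τ ∈ Θ`.  Then there are a finite abelian extension `K₀` of
`K`, with the group `U`, and a finitely generated subgroup `A` of `Θ`, such that

* if `L_k(χ, s)` has a zero or a pole at `1 + iτ` (for any `k`, `χ` and `τ ∈ Θ`), then `χ` is a character of `Gal(K₀/K)`, and
  `τ ∈ A`;
* for every `k` the sum of the squares of the orders of `L_k(χ, s)` at `1 + iτ`, over all pairs `(χ, τ)`, is at most `n²`;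
* for every finite abelian extension `L` of `K` and every continuous function `f` on the torus the primes `v` whose Artin symbol in
  `Gal(L/K)` is `g|L` and those whose Artin symbol is `gu|L` have the same share in the mean value of `∑_i f(x_{i,v})`, for all `u ∈ U`
  (that is, for any two Artin symbols with the same restriction to `L ∩ K₀`); in the sense of the Dirichlet density, and for `Θ = ℝ`
  in the sense of the natural density. -/
theorem result (K : Type) [Field K] [NumberField K] (r : ℕ) (ι : Type) [Fintype ι] [Nonempty ι]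
    (x : ι → HeightOneSpectrum (𝓞 K) → UnitAddTorus (Fin r))
    (σ : HeightOneSpectrum (𝓞 K) → GK K) (hσ : ∀ v, IsFrob v (σ v)) (Θ : AddSubgroup ℝ)
    (hL : ∀ (k : Fin r → ℤ) (χ : GK K →* Circle), IsFiniteOrder χ → ∀ τ ∈ Θ,
      ∃ Λ, IsContinuation x σ k χ τ Λ) :
    ∃ (U : Subgroup (GK K)) (A : AddSubgroup ℝ), IsAbelianExtension U ∧ A.FG ∧ A ≤ Θ ∧
      (∀ (k : Fin r → ℤ) (χ : GK K →* Circle), IsFiniteOrder χ → ∀ τ ∈ Θ, ∀ Λ,
        IsContinuation x σ k χ τ Λ → meromorphicOrderAt Λ (1 + τ * Complex.I) ≠ 0 →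
          (∀ u ∈ U, χ u = 1) ∧ τ ∈ A) ∧
      (∀ (k : Fin r → ℤ) (κ : Type) [Fintype κ] (χ : κ → GK K →* Circle) (τ : κ → ℝ)
        (Λ : κ → ℂ → ℂ), (∀ j, IsFiniteOrder (χ j)) → (∀ j, τ j ∈ Θ) →
        Function.Injective (fun j => (χ j, τ j)) →
        (∀ j, IsContinuation x σ k (χ j) (τ j) (Λ j)) →
        ∃ m : κ → ℤ, (∀ j, meromorphicOrderAt (Λ j) (1 + τ j * Complex.I) = m j) ∧
          ∑ j, m j ^ 2 ≤ (Fintype.card ι : ℤ) ^ 2) ∧
      ∀ (V : Subgroup (GK K)), IsAbelianExtension V → ∀ (g : GK K), ∀ u ∈ U,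
        ∀ f : UnitAddTorus (Fin r) → ℝ, Continuous f →
        HasMean (fun v => (∑ i, f (x i v)) * (symbol V g (σ v) - symbol V (g * u) (σ v))) 0 ∧
        (Θ = ⊤ →
          HasAverage (fun v => (∑ i, f (x i v)) * (symbol V g (σ v) - symbol V (g * u) (σ v))) 0) := by
  classical
  open Pool.Agent.Q284.IM Pool.Agent.Q284.CP Pool.Agent.TH553.RS Pool.Agent.TH553.ST
    Pool.Agent.Q284.TW in
  have hne : NeZero (Fintype.card ι) := ⟨Fintype.card_ne_zero⟩
  simp only [ce_iff] at hL ⊢
  obtain ⟨φ, U, A, h1, h2, h3, h4, h5, h6, h7, h8⟩ := govern (Θ := Θ) (num x) σ hσ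
    fun a => hL a.1 _ (open_ch a.2.1) a.2.2 a.2.2.2
  -- the orders at the pairs
  have hord : ∀ k χ (hχ : IsFiniteOrder χ) (τ : ℝ) (hτ : τ ∈ Θ) Λ, Ce (tw (num x) σ k χ) τ Λ →
      meromorphicOrderAt Λ (1 + τ * Complex.I) =
        ((-φ (k, (mk χ hχ, ⟨τ, hτ⟩)) : ℤ) : WithTop ℤ) := by
    intro k χ hχ τ hτ Λ hΛ
    exact h1 (k, (mk χ hχ, ⟨τ, hτ⟩)) Λ hΛ
  have hgov : ∀ (k : Fin r → ℤ) (χ : GK K →* Circle), IsFiniteOrder χ → ∀ τ ∈ Θ, ∀ Λ,
        Ce (tw (num x) σ k χ) τ Λ → meromorphicOrderAt Λ (1 + τ * Complex.I) ≠ 0 →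
          U ≤ χ.ker ∧ τ ∈ A := by
    intro k χ hχ τ hτ Λ hΛ hne0
    refine h8 (k, (mk χ hχ, ⟨τ, hτ⟩)) fun h9 => hne0 ?_
    rw [hord k χ hχ τ hτ Λ hΛ, h9, neg_zero]
    rfl
  refine ⟨U, A, ⟨h4, h5⟩, h6, h7, fun k χ hχ τ hτ Λ hΛ hne0 => ?_, fun k κ _ χ τ Λ hχ hτ hinj hΛ => ?_,
    fun V hV g u hu f hf => ⟨?_, fun hΘ => ?_⟩⟩
  · obtain ⟨h9, h10⟩ := hgov k χ hχ τ hτ Λ hΛ hne0
    exact ⟨fun u hu => h9 hu, h10⟩
  · refine ⟨fun j => -φ (k, (mk (χ j) (hχ j), ⟨τ j, hτ j⟩)), fun j =>
      hord k (χ j) (hχ j) (τ j) (hτ j) (Λ j) (hΛ j), ?_⟩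
    have hi : Function.Injective fun j : κ => ((mk (χ j) (hχ j), ⟨τ j, hτ j⟩) :
        Additive (chars K) × Θ) := by
      intro i j hij
      apply hinj
      have e1 := congrArg Prod.fst hij
      have e2 := congrArg Prod.snd hij
      have e3 : χ i = χ j := congrArg (fun a => ch a) e1
      have e4 : τ i = τ j := congrArg Subtype.val e2
      exact Prod.ext e3 e4
    have h9 := h3 k (Finset.univ.image fun j : κ => ((mk (χ j) (hχ j), ⟨τ j, hτ j⟩) :
        Additive (chars K) × Θ))
    rw [Finset.sum_image fun a _ b _ hab => hi hab] at h9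
    refine le_trans (le_of_eq (Finset.sum_congr rfl fun j _ => ?_)) h9
    ring
  · refine mean_iff.2 (dm_tendsto ?_ fun W hW => ?_)
    · have hb := bd_f (num x) hf
      simp only [sum_num] at hb
      have hbi : ∀ g : GK K, Bd fun v => symbol V g (σ v) := fun g => ⟨1, fun v => by
        show |symbol V g (σ v)| ≤ 1
        unfold symbol
        split_ifs <;> simp⟩
      exact hb.mul ((hbi g).sub (hbi (g * u)))
    · have := dir_symb (num x) σ h2 (U := U) (fun a ha => (h8 a ha).1) hW hf V hV.1 hV.2 g u hu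
      simp only [sum_num] at this
      exact this
  · subst hΘ
    have := nat_symb (num x) σ (U := U) (fun k χ hχ τ => hL k χ hχ τ (AddSubgroup.mem_top τ))
      (fun k χ hχ hnot τ F hF => ?_) hf V hV.1 hV.2 g u hu
    · simp only [sum_num] at this
      exact avg_iff.2 this
    · by_contra h9
      exact hnot (hgov k χ hχ τ (AddSubgroup.mem_top τ) F hF h9).1

end Pool.Agent.Results.MP_148101_nt.GoverningTwists
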