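import Pool.Agent.Q282.TC.Defs
import Pool.Agent.Q282.TC.Main

/-!
# The half plane `Re s > (w + 1) / 2` for the Chow motives of almost all hyperelliptic curves and all their twists

Let `K` be a number field with the ring of integers `𝓞`, for instance `K = ℚ`, and let `C_1, ..., C_s` be hyperelliptic curves of
genus `g_i`, `C_i : y ^ 2 = f_i(x)`, `f_i` a monic polynomial of degree `2 g_i + 1` over `𝓞`. Consider the Chow motives
`M_c = ⊗_i ⊗_j Λ ^ {c(i, j)} h¹(C_i)`, `c(i, 0) + ... + c(i, 2 g_i) ≤ 2 g_i + 1`,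
of weight `w = ∑ c(i, j)` (the curves have a rational point at infinity; every tensor construction of degree at most `2 g_i + 1` in
`h¹(C_i)`, for instance every Schur functor, is an integral combination of these motives, by the formula of Jacobi and Trudi).
Let `ρ(c)` be the dimension of the space of the invariants of `∏ Sp(2 g_i)` in `M_c`: the product over `i` of the numbers of the
symmetric matrices with entries in `ℕ`, even entries on the diagonal and row sums `c(i, j)`. It is `0` if `w` is odd. The question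
predicts that `L(M_c ⊗ ψ, s)`, for a character `ψ`, continues to a meromorphic function, holomorphic if `ρ(c) = 0` and the Galois
representations are as large as possible; Tate's conjecture and the Riemann hypothesis predict that `L(M_c ⊗ ψ, s)` is
`L(ψ, s - w / 2) ^ ρ(c)` times a function without zeros and poles in `Re s > (w + 1) / 2`.

Let the coordinates of the coefficients of the `f_i` in a `ℤ`-basis of `𝓞` be taken at random in any box with sides at least `T`,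
and let `Ψ(n)`, `n = 1, 2, ...`, be increasing sets of at most `n ^ a` functions `ψ` on the primes of `K` with values in the closed
unit disk, for instance of Hecke characters (for `K = ℚ` all Dirichlet characters modulo `m ≤ n ^ (a / 2)`), where `a` is arbitrary.
It is proved, unconditionally, that there is a `κ > 0` such that, outside a proportion `O (X₀ ^ (-a))` of exceptions, for all these
motives at the same time, all `X₀ ≤ Y ≤ Y' ≤ T ^ κ`, all `ψ` in `Ψ(Y)` and all `z` with `Re z ≥ 1 / 2 + ε` and `|Im z| ≤ Y ^ a` the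
product of the Euler factors of `L(M_c ⊗ ψ, s)` at `s = w / 2 + z` over the primes with `Y < N v ≤ Y'` is the product of those of
`L(ψ, z) ^ ρ(c)` times `exp (E)`, `|E| ≤ Y ^ (1 / 2 - Re z + ε)`.

This is the rate of convergence in the half plane which the Riemann hypothesis gives, in the aspects of `Y`, of the height `Im z` and
of the twist `ψ`.

Proof. For one prime `v` the mean of the trace of Frobenius on `M_c`, divided by `(N v) ^ (w / 2)`, over the polynomials over the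
residue field is `ρ(c) + O (1 / N v)` (elementary, from the factorisation of squares into squarefree parts). The sums over the primes
in dyadic intervals are estimated by high moments (the chinese remainder theorem) for all characters and all heights in a fine net,
and then by Abel's summation.
-/

set_option autoImplicit false

namespace Pool.Agent.Results.MP_148101_nt.HalfPlaneRandomCurves

open Finset NumberField IsDedekindDomain Polynomial
open Q282.TC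

/-- The polynomials `f_i = X ^ (2 g_i + 1) + u (i, 2 g_i) X ^ (2 g_i) + ... + u (i, 0)`. -/
noncomputable def polynomials {R : Type} [CommRing R] {s : ℕ} {g : Fin s → ℕ} (u : (Σ i : Fin s, Fin (2 * g i + 1)) → R) (i : Fin s) : R[X] :=
  X ^ (2 * g i + 1) + ∑ l, C (u ⟨i, l⟩) * X ^ (l : ℕ)

/-- `ρ(c)`: the product over `i` of the numbers of the symmetric matrices with entries in `ℕ`, even entries on the diagonal and row
sums `c (i, 0), ..., c (i, 2 g_i)`. -/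
noncomputable def invariants {s : ℕ} {g : Fin s → ℕ} (c : (Σ i : Fin s, Fin (2 * g i + 1)) → ℕ) : ℕ :=
  ∏ i, Nat.card {S : Matrix (Fin (2 * g i + 1)) (Fin (2 * g i + 1)) ℕ //
    (∀ j k, S j k = S k j) ∧ (∀ j, Even (S j j)) ∧ ∀ j, ∑ k, S j k = c ⟨i, j⟩}

/-- For all `c` with `c (i, 0) + ... + c (i, 2 g_i) ≤ 2 g_i + 1` for all `i`, `w = ∑ c (i, j)`, all integers `X₀ ≤ Y ≤ Y' ≤ W`, all
`ψ` in `Ψ(Y)` and all `z` with `Re z ≥ 1 / 2 + ε` and `|Im z| ≤ Y ^ a`: the product of the Euler factors at `w / 2 + z` of the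
`L`-function of `⊗_i ⊗_j Λ ^ {c (i, j)} H¹(C_i)`, `C_i : y ^ 2 = f_i(x)`, twisted by `ψ`, over the good primes `v` (not dividing two,
and all `f_i` squarefree modulo `v`) with `Y < N v ≤ Y'` is the product of the `(1 - ψ(v) N v ^ (-z)) ^ (-ρ(c))` over all primes with
`Y < N v ≤ Y'` times `exp (E)`, `|E| ≤ Y ^ (1 / 2 - Re z + ε)`. -/
def Typical {K : Type} [Field K] [NumberField K] {s : ℕ} (g : Fin s → ℕ) (ε : ℝ) (a : ℕ) (Ψ : ℕ → Finset (HeightOneSpectrum (𝓞 K) → ℂ))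
    (X₀ : ℕ) (W : ℝ) (f : Fin s → (𝓞 K)[X]) : Prop :=
  ∀ c : (Σ i : Fin s, Fin (2 * g i + 1)) → ℕ, (∀ i, ∑ j, c ⟨i, j⟩ ≤ 2 * g i + 1) →
    ∀ Y Y' : ℕ, X₀ ≤ Y → Y ≤ Y' → (Y' : ℝ) ≤ W → ∀ ψ ∈ Ψ Y, ∀ z : ℂ, 1 / 2 + ε ≤ z.re → |z.im| ≤ (Y : ℝ) ^ a →
      ∃ E : ℂ, ‖E‖ ≤ (Y : ℝ) ^ (1 / 2 - z.re + ε) ∧
        productM f c ψ (((∑ x, c x : ℕ) : ℂ) / 2 + z) Y' / productM f c ψ (((∑ x, c x : ℕ) : ℂ) / 2 + z) Y =
          Complex.exp E * (productZ ψ z Y' / productZ ψ z Y) ^ invariants c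

lemma exists_min {α : Type} (s : Finset α) (κ : α → ℝ) (h : ∀ x, 0 < κ x) : ∃ c : ℝ, 0 < c ∧ ∀ x ∈ s, c ≤ κ x := by
  classical
  induction s using Finset.induction_on with
  | empty => exact ⟨1, one_pos, fun f hf => absurd hf (notMem_empty f)⟩
  | insert x s _ ih =>
    obtain ⟨c, hc, h'⟩ := ih
    refine ⟨min c (κ x), lt_min hc (h x), fun y hy => ?_⟩
    rcases mem_insert.1 hy with rfl | hy
    · exact min_le_right _ _
    · exact (min_le_left _ _).trans (h' y hy)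

open Classical in
/-- Let `K` be a number field, let `C_i : y ^ 2 = f_i(x)`, `i = 1, ..., s`, be the curves with the polynomials
`f_i = X ^ (2 g_i + 1) + ...` over the ring of integers of `K`. For all `ε > 0` and `a ≥ 1` there are `κ > 0` and `C` with the
following property. Let `b` be a basis of the ring of integers over `ℤ`, let `Ψ(n)` be increasing sets of at most `n ^ a` functions on
the primes of `K` with values in the closed unit disk, let a box `N k ≤ ν k < N k + L k` be given all sides of which are at least `T`,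
and `X₀ ≥ 1`. Then for all but at most a proportion `C X₀ ^ (-a)` of the `ν` of the box the polynomials with the coefficients
`t = comb b ν`, `t k = ∑ ν (k, l) b l`, have the property `Typical g ε a Ψ X₀ (T ^ κ)`. -/
theorem result (K : Type) [Field K] [NumberField K] (s : ℕ) (g : Fin s → ℕ) (ε : ℝ) (a : ℕ) (hε : 0 < ε) (ha : 1 ≤ a) :
    ∃ κ : ℝ, 0 < κ ∧ ∃ C : ℝ, ∀ (b : Module.Basis (Fin (Module.finrank ℚ K)) ℤ (𝓞 K)) (Ψ : ℕ → Finset (HeightOneSpectrum (𝓞 K) → ℂ)),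
      (∀ n, (Ψ n).card ≤ n ^ a) → (∀ m n, m ≤ n → Ψ m ⊆ Ψ n) → (∀ n, ∀ ψ ∈ Ψ n, ∀ v, ‖ψ v‖ ≤ 1) →
      ∀ (N : (Σ i : Fin s, Fin (2 * g i + 1)) × Fin (Module.finrank ℚ K) → ℤ)
      (L : (Σ i : Fin s, Fin (2 * g i + 1)) × Fin (Module.finrank ℚ K) → ℕ) (T : ℝ), 0 < T → (∀ k, T ≤ L k) → ∀ X₀ : ℕ, 1 ≤ X₀ →
      (((Q282.GK.kbox N L).filter fun ν => ¬ Typical g ε a Ψ X₀ (T ^ κ) (polynomials (Q282.GK.comb b ν))).card : ℝ) ≤
        C * (X₀ : ℝ) ^ (-(a : ℝ)) * ∏ k, (L k : ℝ) := by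
  -- the finite set of the exponents
  obtain ⟨𝒜, h𝒜⟩ : ∃ 𝒜 : Finset ((Σ i : Fin s, Fin (2 * g i + 1)) → ℕ), 𝒜 =
    (Fintype.piFinset fun x : (Σ i : Fin s, Fin (2 * g i + 1)) => range (2 * g x.1 + 2)).filter fun c => ∀ i, ∑ j, c ⟨i, j⟩ ≤ 2 * g i + 1 := ⟨_, rfl⟩
  have hmem : ∀ c : (Σ i : Fin s, Fin (2 * g i + 1)) → ℕ, c ∈ 𝒜 ↔ ∀ i, ∑ j, c ⟨i, j⟩ ≤ 2 * g i + 1 := by
    intro c
    rw [h𝒜, mem_filter, Fintype.mem_piFinset]
    refine ⟨fun h => h.2, fun h => ⟨fun x => ?_, h⟩⟩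
    have h1 : c ⟨x.1, x.2⟩ ≤ ∑ j, c ⟨x.1, j⟩ := single_le_sum (f := fun j => c ⟨x.1, j⟩) (fun _ _ => Nat.zero_le _) (mem_univ x.2)
    have h2 := h x.1
    have h3 : c x ≤ ∑ j, c ⟨x.1, j⟩ := h1
    rw [mem_range]
    omega
  have hloc : ∀ c : (Σ i : Fin s, Fin (2 * g i + 1)) → ℕ, ∃ B : ℝ, 0 < B ∧ (c ∈ 𝒜 → Q282.TP.LocZ K (Q282.TP.Jx g) B (fun v t => valM (Q282.TP.cu t) c v) ∧
      ∀ (t : Q282.TP.Jx g → 𝓞 K) (ψ : HeightOneSpectrum (𝓞 K) → ℂ), (∀ v, ‖ψ v‖ ≤ 1) → ∀ z : ℂ, 1 / 2 ≤ z.re → ∀ v : HeightOneSpectrum (𝓞 K),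
      ‖gv (Q282.TP.cu t) c ψ z v - ψ v * (Ideal.absNorm v.asIdeal : ℂ) ^ (1 - z) * valM (Q282.TP.cu t) c v‖ ≤ B * (Ideal.absNorm v.asIdeal : ℝ) ^ (-(2 * z.re))) := by
    intro c
    obtain ⟨C₁, hC₁, h1⟩ := gv_expand (K := K) g c
    by_cases hc : c ∈ 𝒜
    · obtain ⟨B, hB, h2⟩ := loc_M K g c ((hmem c).1 hc)
      refine ⟨B + C₁, by positivity, fun _ => ⟨locZ_mono h2 (by linarith), fun t ψ hψ z hz v => (h1 t ψ hψ z hz v).trans ?_⟩⟩
      refine mul_le_mul_of_nonneg_right (by linarith) (by positivity)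
    · exact ⟨1, one_pos, fun h => absurd h hc⟩
  choose B hB hloc using hloc
  have hhalf := fun c => half K (Q282.TP.Jx g) (B c) ε a (hB c) hε ha
  choose κf hκf Cf hCf hhalf using hhalf
  obtain ⟨κ, hκ, hκmin⟩ := exists_min 𝒜 κf hκf
  refine ⟨κ, hκ, ∑ c ∈ 𝒜, Cf c, fun b Ψ hΨc hΨm hΨ1 N L T hT0 hTL X₀ hX₀ => ?_⟩
  have hb : ∀ x : 𝓞 K, ∃ a : Fin (Module.finrank ℚ K) → ℤ, x = ∑ j, (a j : 𝓞 K) * b j := by
    intro x
    refine ⟨fun j => b.repr x j, ?_⟩
    have h1 := b.sum_repr x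
    rw [← h1]
    refine sum_congr rfl fun j _ => ?_
    rw [h1, zsmul_eq_mul]
  have hX₀' : (1 : ℝ) ≤ X₀ := by exact_mod_cast hX₀
  have hpol : ∀ t : (Σ i : Fin s, Fin (2 * g i + 1)) → 𝓞 K, (polynomials t : Fin s → (𝓞 K)[X]) = Q282.TP.cu t := fun t => rfl
  obtain ⟨E, hE⟩ : ∃ E : ((Σ i : Fin s, Fin (2 * g i + 1)) → ℕ) → Finset ((Σ i : Fin s, Fin (2 * g i + 1)) × Fin (Module.finrank ℚ K) → ℤ), E = fun c =>
      (Q282.GK.kbox N L).filter fun ν => ∃ X X' : ℕ, ∃ ψ ∈ Ψ X, ∃ z : ℂ, X₀ ≤ X ∧ X ≤ X' ∧ (X' : ℝ) ≤ T ^ κf c ∧ 1 / 2 + ε ≤ z.re ∧ |z.im| ≤ (X : ℝ) ^ a ∧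
        (X : ℝ) ^ (1 / 2 - z.re + ε) < ‖∑ v ∈ Q282.GK.SX K X', gv (Q282.TP.cu (Q282.GK.comb b ν)) c ψ z v -
          ∑ v ∈ Q282.GK.SX K X, gv (Q282.TP.cu (Q282.GK.comb b ν)) c ψ z v‖ := ⟨_, rfl⟩
  have h1 : ∀ c ∈ 𝒜, ((E c).card : ℝ) ≤ Cf c * (X₀ : ℝ) ^ (-(a : ℝ)) * ∏ k, (L k : ℝ) := by
    intro c hc
    refine hhalf c (fun j => b j) hb (fun v t => valM (Q282.TP.cu t) c v) ((hloc c hc).1) (fun ψ z v t => gv (Q282.TP.cu t) c ψ z v)
      (fun ψ hψ z hz v t => (hloc c hc).2 t ψ hψ z hz v) Ψ hΨc hΨm hΨ1 N L T hT0 hTL X₀ hX₀ (E c) (by rw [hE]; exact filter_subset _ _) ?_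
    intro ν hν
    rw [hE] at hν
    exact (mem_filter.1 hν).2
  have h3 : ((Q282.GK.kbox N L).filter fun ν => ¬ Typical g ε a Ψ X₀ (T ^ κ) (polynomials (Q282.GK.comb b ν))) ⊆ 𝒜.biUnion E := by
    intro ν hν
    rw [mem_filter] at hν
    by_contra hno
    rw [mem_biUnion] at hno
    push Not at hno
    refine hν.2 fun c hc Y Y' hY hYY hYT ψ hψ z hz1 hz2 => ?_
    rw [hpol]
    have h4 := hno c ((hmem c).2 hc)
    rw [hE] at h4
    have hψn : ∀ v, ‖ψ v‖ ≤ 1 := hΨ1 Y ψ hψ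
    have hzre : 1 / 2 ≤ z.re := by linarith
    have hYr : (1 : ℝ) ≤ Y' := by
      have : 1 ≤ Y' := hX₀.trans (hY.trans hYY)
      exact_mod_cast this
    have hT1 : 1 ≤ T := by
      by_contra hlt
      push Not at hlt
      have := Real.rpow_lt_one hT0.le hlt hκ
      linarith
    have hYT' : (Y' : ℝ) ≤ T ^ κf c := hYT.trans (Real.rpow_le_rpow_of_exponent_le hT1 (hκmin c ((hmem c).2 hc)))
    obtain ⟨hP1, hZ1⟩ := product_exp (Q282.TP.cu (Q282.GK.comb b ν)) c ψ hψn z hzre Y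
    obtain ⟨hP2, hZ2⟩ := product_exp (Q282.TP.cu (Q282.GK.comb b ν)) c ψ hψn z hzre Y'
    refine ⟨∑ v ∈ Q282.GK.SX K Y', gv (Q282.TP.cu (Q282.GK.comb b ν)) c ψ z v - ∑ v ∈ Q282.GK.SX K Y, gv (Q282.TP.cu (Q282.GK.comb b ν)) c ψ z v, ?_, ?_⟩
    · by_contra hlt
      push Not at hlt
      exact h4 (mem_filter.2 ⟨hν.1, Y, Y', ψ, hψ, z, hY, hYY, hYT', hz1, hz2, hlt⟩)
    · have hw : (((∑ x, c x : ℕ) : ℂ) / 2 + z) = ((wt c : ℂ) / 2 + z) := rfl
      have hi : invariants c = inv c := rfl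
      rw [hw, hi, hP1, hP2, Complex.exp_sub, div_pow]
      have e1 := Complex.exp_ne_zero (∑ v ∈ Q282.GK.SX K Y, gv (Q282.TP.cu (Q282.GK.comb b ν)) c ψ z v)
      have e2 := pow_ne_zero (inv c) hZ1
      field_simp
  have h4 : (((Q282.GK.kbox N L).filter fun ν => ¬ Typical g ε a Ψ X₀ (T ^ κ) (polynomials (Q282.GK.comb b ν))).card : ℝ) ≤
      ∑ c ∈ 𝒜, ((E c).card : ℝ) := by
    exact_mod_cast (card_le_card h3).trans card_biUnion_le
  refine h4.trans ((sum_le_sum h1).trans (le_of_eq ?_))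
  rw [← sum_mul, ← sum_mul]

end Pool.Agent.Results.MP_148101_nt.HalfPlaneRandomCurves
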