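import Pool.Agent.Q255.SG.QBd
import Pool.Agent.Q255.SG.LV4

/-!
# The exact rate of the large values on the edge of absolute convergence

`M` is a Chow motive over `ℚ`, `w` an integer and `N` the dimension of `H^w(M)`.  The Euler product
`L^w(M, s)` is absolutely convergent for `Re s > w/2 + 1`; nothing is known in general about its
continuation to the edge `Re s = w/2 + 1` or beyond, but it has boundary values `l(t)` there outside
a set of Hausdorff dimension `0`.

We determine how often `|l(t)|` can be large.  In long windows `[a, a + τ]` the proportion of the `t`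
with `|l(t)| > (e^γ u)^N` is at most `exp(-exp((1 - δ) u))`, uniformly for all motives of rank `N`,
all weights, all conductors and all windows, as soon as `u` is large in terms of `N` and `δ` and `τ`
is large in terms of `N`, `δ` and `u`.  For the sums of `N` copies of a Tate motive, that is, for
`ζ(s - m)^N`, the proportion is at least `exp(-exp((1 + δ) u))`.  So the double exponential rate and
the constant `e^γ` (`γ` is the constant of Euler) are exact: no motive of rank `N` has more large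
values on the edge, in this sense, than the motives of Tate.

No continuation, no functional equation and no automorphy is used or assumed.
-/

set_option autoImplicit false

namespace Pool.Agent.Results.MP_148101_nt.LargeValues

open Filter Topology Polynomial MeasureTheory

/-- The polynomials `B p`, `p` prime, are the Euler factors of an `L`-function of rank `N` and weight
`w`: `B_p(z) = ∏_{j < N} (1 - α_j z)` with complex numbers `α_j` (some of them possibly `0`) of
absolute value at most `p^{w/2}`.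

For the cohomology `H^w(M)` of a Chow motive over `ℚ` and a prime of good reduction the `α_j` are the
eigenvalues of the geometric Frobenius at `p`, of absolute value `p^{w/2}` (Deligne).  The finitely
many Euler factors at the other primes may be omitted (`B p = 1`), or be the usual ones if the
eigenvalues of Frobenius on the inertia invariants have absolute value at most `p^{w/2}`, as is
expected in general. -/
def IsEulerSystem (N : ℕ) (w : ℤ) (B : ℕ → ℂ[X]) : Prop :=
  ∀ p : ℕ, p.Prime → ∃ α : Fin N → ℂ, (∀ j, ‖α j‖ ≤ (p : ℝ) ^ ((w : ℝ) / 2)) ∧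
    ∀ z : ℂ, (B p).eval z = ∏ j, (1 - α j * z)

/-- The Euler product `∏_p B_p(p^{-s})⁻¹`. -/
noncomputable def LFun (B : ℕ → ℂ[X]) (s : ℂ) : ℂ :=
  ∏' p : Nat.Primes, ((B p).eval (((p : ℕ) : ℂ) ^ (-s)))⁻¹

/-- The point `w/2 + 1 + iτ` of the edge of absolute convergence. -/
noncomputable def edgePoint (w : ℤ) (τ : ℝ) : ℂ := (((w : ℝ) / 2 + 1 : ℝ) : ℂ) + (τ : ℂ) * Complex.I

/-- The angle `|s - s_τ| ≤ K (Re s - (w/2 + 1))` at `s_τ = w/2 + 1 + iτ` in the half-plane
`Re s > w/2 + 1`. -/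
def angle (w : ℤ) (τ K : ℝ) : Set ℂ :=
  {s : ℂ | (w : ℝ) / 2 + 1 < s.re ∧ ‖s - edgePoint w τ‖ ≤ K * (s.re - ((w : ℝ) / 2 + 1))}

/-- `l` is the boundary function of the `L`-function outside the exceptional set `T`: its values
there are not zero, and they are the limits of the partial Euler products and of the `L`-function in
every angle. -/
def IsBoundaryFunction (w : ℤ) (B : ℕ → ℂ[X]) (T : Set ℝ) (l : ℝ → ℂ) : Prop :=
  ∀ τ : ℝ, τ ∉ T → l τ ≠ 0 ∧
    Tendsto (fun x : ℕ => ∏ p ∈ Nat.primesBelow x, ((B p).eval ((p : ℂ) ^ (-edgePoint w τ)))⁻¹)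
      atTop (𝓝 (l τ)) ∧
    ∀ K : ℝ, Tendsto (LFun B) (𝓝[angle w τ K] (edgePoint w τ)) (𝓝 (l τ))

theorem null_of_dimH {T : Set ℝ} (hT : dimH T = 0) : volume T = 0 := by
  have h1 : (Measure.hausdorffMeasure (1 : ℝ) : Measure ℝ) T = 0 := by
    have := hausdorffMeasure_of_dimH_lt (X := ℝ) (s := T) (d := 1) (by rw [hT]; norm_num)
    simpa using this
  rw [← MeasureTheory.hausdorffMeasure_real]
  exact h1

theorem exists_alpha {N : ℕ} {w : ℤ} {B : ℕ → ℂ[X]} (hB : IsEulerSystem N w B) :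
    ∃ α : ℕ → Fin N → ℂ, Pool.Agent.Q255.SG.Bd (w : ℝ) α ∧
      ∀ p : ℕ, p.Prime → ∀ z : ℂ, (B p).eval z = ∏ j, (1 - α p j * z) := by
  classical
  refine ⟨fun p => if hp : p.Prime then (hB p hp).choose else 0, fun p hp j => ?_,
    fun p hp z => ?_⟩
  · simp only [dif_pos hp]
    exact (hB p hp).choose_spec.1 j
  · simp only [dif_pos hp]
    exact (hB p hp).choose_spec.2 z

theorem lim_of {N : ℕ} {w : ℤ} {B : ℕ → ℂ[X]} {α : ℕ → Fin N → ℂ}
    (hα : Pool.Agent.Q255.SG.Bd (w : ℝ) α)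
    (hB : ∀ p : ℕ, p.Prime → ∀ z : ℂ, (B p).eval z = ∏ j, (1 - α p j * z))
    {T : Set ℝ} {l : ℝ → ℂ} (h : IsBoundaryFunction w B T l) :
    Pool.Agent.Q255.SG.Lim (Pool.Agent.Q255.SG.AP (Pool.Agent.Q255.SG.qAD (w : ℝ) α hα)) T l := by
  intro τ hτ
  refine ⟨(h τ hτ).1, (h τ hτ).2.1.congr fun x => ?_⟩
  rw [← Pool.Agent.Q255.SG.q_partial hα x τ]
  refine Finset.prod_congr rfl fun p hp => ?_
  rw [hB p (Nat.prime_of_mem_primesBelow hp)]
  rfl

/-- The Euler factors of `ζ(s - m)^N`, the `L`-function, in the degree `2m`, of the sum of `N` copies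
of the Tate motive of weight `2m`. -/
noncomputable def tate (m : ℤ) (N : ℕ) (p : ℕ) : ℂ[X] := (1 - C ((p : ℂ) ^ m) * X) ^ N

theorem tate_eval (m : ℤ) (N p : ℕ) (z : ℂ) :
    (tate m N p).eval z = ∏ _j : Fin N, (1 - (p : ℂ) ^ m * z) := by
  unfold tate
  simp

theorem tate_bound (m : ℤ) {p : ℕ} (hp : p.Prime) :
    ‖(p : ℂ) ^ m‖ = (p : ℝ) ^ (((2 * m : ℤ) : ℝ) / 2) := by
  rw [norm_zpow, Complex.norm_natCast, ← Real.rpow_intCast]
  congr 1
  push_cast
  ring

/-- **The exact rate of the large values on the edge.**  Let `N ≥ 1`.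

1. Every Euler product of rank `N` and weight `w` has a boundary function on the line
`Re s = w/2 + 1`, outside a set of Hausdorff dimension `0`.
2. Let `0 < δ < 1`.  For every large real `u` there is `τ₀ > 0` such that for all real `a` and all
`τ ≥ τ₀`:
for all weights, all Euler products of rank `N` and all their boundary functions `l` the measure of
the `t ∈ [a, a + τ]` with `|l(t)| > (e^γ u)^N` is at most `τ exp(-exp((1 - δ) u))`;
for the Euler products `ζ(s - m)^N`, `m` any integer, it is at least `τ exp(-exp((1 + δ) u))`. -/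
theorem result (N : ℕ) (hN : 1 ≤ N) :
    (∀ (w : ℤ) (B : ℕ → ℂ[X]), IsEulerSystem N w B →
      ∃ T : Set ℝ, dimH T = 0 ∧ ∃ l : ℝ → ℂ, IsBoundaryFunction w B T l) ∧
    (∀ m : ℤ, IsEulerSystem N (2 * m) (tate m N)) ∧
    ∀ δ : ℝ, 0 < δ → δ < 1 → ∃ u₀ : ℝ, ∀ u : ℝ, u₀ ≤ u → ∃ τ₀ : ℝ, 0 < τ₀ ∧
      ∀ a τ : ℝ, τ₀ ≤ τ →
        (∀ (w : ℤ) (B : ℕ → ℂ[X]), IsEulerSystem N w B → ∀ T : Set ℝ, dimH T = 0 →
          ∀ l : ℝ → ℂ, IsBoundaryFunction w B T l →
          volume {t ∈ Set.Icc a (a + τ) | (Real.exp Real.eulerMascheroniConstant * u) ^ N < ‖l t‖} ≤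
            ENNReal.ofReal (τ * Real.exp (-Real.exp ((1 - δ) * u)))) ∧
        (∀ (m : ℤ) (T : Set ℝ), dimH T = 0 →
          ∀ l : ℝ → ℂ, IsBoundaryFunction (2 * m) (tate m N) T l →
          ENNReal.ofReal (τ * Real.exp (-Real.exp ((1 + δ) * u))) ≤
            volume {t ∈ Set.Icc a (a + τ) |
              (Real.exp Real.eulerMascheroniConstant * u) ^ N < ‖l t‖}) := by
  refine ⟨fun w B hB => ?_, fun m p hp => ⟨fun _ => (p : ℂ) ^ m,
    fun _ => (tate_bound m hp).le, fun z => tate_eval m N p z⟩, fun δ hδ0 hδ1 => ?_⟩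
  · obtain ⟨α, hα, hBα⟩ := exists_alpha hB
    obtain ⟨T, hT, h⟩ := Pool.Agent.Q255.SG.boundary_q hα
    have h' : ∀ τ : ℝ, ∃ l : ℂ, τ ∉ T → l ≠ 0 ∧
        Tendsto (fun x : ℕ => ∏ p ∈ Nat.primesBelow x,
          ((B p).eval ((p : ℂ) ^ (-edgePoint w τ)))⁻¹) atTop (𝓝 l) ∧
        ∀ K : ℝ, Tendsto (LFun B) (𝓝[angle w τ K] (edgePoint w τ)) (𝓝 l) := by
      intro τ
      by_cases hτ : τ ∈ T
      · exact ⟨0, fun h => absurd hτ h⟩
      · obtain ⟨l, h1, h2, h3⟩ := h τ hτ
        refine ⟨l, fun _ => ⟨h1, h2.congr fun x => ?_, fun K => (h3 K).congr fun s => ?_⟩⟩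
        · refine Finset.prod_congr rfl fun p hp => ?_
          rw [hBα p (Nat.prime_of_mem_primesBelow hp)]
          rfl
        · refine tprod_congr fun p => ?_
          rw [hBα p p.2]
    choose l hl using h'
    exact ⟨T, hT, l, hl⟩
  · obtain ⟨u₀, hu₀⟩ := (Pool.Agent.Q255.SG.large_values N hN hδ0 hδ1).exists_forall_of_atTop
    refine ⟨u₀, fun u hu => ?_⟩
    obtain ⟨τ₀, hτ₀, h⟩ := hu₀ u hu
    refine ⟨τ₀, hτ₀, fun a τ hτ => ⟨fun w B hB T hT l hl => ?_, fun m T hT l hl => ?_⟩⟩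
    · obtain ⟨α, hα, hBα⟩ := exists_alpha hB
      exact (h w α hα T (null_of_dimH hT) l (lim_of hα hBα hl) a τ hτ).1
    · set α : ℕ → Fin N → ℂ := fun p _ => (p : ℂ) ^ m with hαdef
      have hα : Pool.Agent.Q255.SG.Bd ((2 * m : ℤ) : ℝ) α := fun p hp _ => (tate_bound m hp).le
      have hlim := lim_of (w := 2 * m) hα (fun p _ z => tate_eval m N p z) hl
      refine (h _ α hα T (null_of_dimH hT) l hlim a τ hτ).2 fun p hp j => ?_
      have hp0 : (p : ℂ) ≠ 0 := by exact_mod_cast hp.ne_zero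
      have h1 : (((p : ℝ) ^ (-(((2 * m : ℤ) : ℝ) / 2)) : ℝ) : ℂ) = ((p : ℂ) ^ m)⁻¹ := by
        have h4 : -(((2 * m : ℤ) : ℝ) / 2) = ((-m : ℤ) : ℝ) := by
          push_cast
          ring
        rw [h4, Real.rpow_intCast, zpow_neg]
        push_cast
        rfl
      unfold Pool.Agent.Q255.SG.bt
      rw [h1]
      have hp1 : (p : ℂ) ^ m ≠ 0 := zpow_ne_zero m hp0
      simp only [hαdef]
      rw [mul_inv_cancel₀ hp1, one_div]

end Pool.Agent.Results.MP_148101_nt.LargeValues
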