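import Mathlib
import Pool.Agent.Q7.RL.Solv
import Pool.Agent.Q7.DB.RealNum

/-!
# Elliptic curves tensored with solvable Artin motives: no poles for zeros of small order

The motives of this file are `M = h¹(E) ⊗ ρ` over `ℚ` (or over a number field `K`), where `E/K` is an
elliptic curve with an integral equation `W` (`IsModel E W`) and `ρ` is an Artin motive which becomes
trivial over a Galois extension `M/K` with SOLVABLE group `M ≃ₐ[K] M`. These are motives of odd
weight, so that their L-functions `L(E ⊗ ρ, s)` should be holomorphic.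

The L-functions are real ones. `Pool.Agent.Q92.RT.twistedL M W φ` is `L(E ⊗ φ, s)` for a class
function `φ` of the Galois group: `exp ∑ φ(Frob_v ^ n) (α_v ^ n + β_v ^ n) / (n q_v ^ (n s))` over `n ≥ 1`
and the primes `v` of `K` which do not divide `6` and the discriminant of `W` and are unramified in
`M`; the finitely many Euler factors left out have no zeros and poles for `Re s ≥ 1`.
`HasOrder g s₀ n`: the function `g`, given for `Re s > 3/2`, has a meromorphic continuation to `ℂ`, of
order `n` at `s₀`. `LOrder E s₀ n`: the same for the complete L-function `L(E/M, s)`.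
`Orders E W s₀ n r`: the order of `L(E ⊗ χ, s)` at `s₀` is `n χ` and that of `L(E/F, s)` is `r F`, for all
fields `F` between `K` and `M`.

The assumptions are instances of the conjecture, known for automorphic `E`, for example if `K = ℚ`.
`Automorphic M W s₀`: `L(E ⊗ χ, s)` has a meromorphic continuation for the irreducible characters
`χ`, and `L(E/M^H ⊗ ψ, s)` is holomorphic at `s₀` for the LINEAR characters `ψ` of the (solvable)
subgroups `H` (solvable descent). `DegreeTwo M W s₀`: `L(E/M^H ⊗ ψ, s)` has no pole at `s₀` for the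
irreducible characters `ψ` of degree two of the subgroups `H` (Langlands and Tunnell, Rankin and
Selberg). `SymplecticEquations M W`: the functional equations at the centre of the
`L(E/M^H ⊗ ψ, s)` for the symplectic irreducible characters `ψ` of the subgroups `H` (real valued with
Frobenius-Schur indicator `-1`), with root number `1`.

`Pool.Agent.W446.AS.Frame X F D` : the centre `Z` of `X` is cyclic and contains all abelian normal
subgroups of `X`, and `F` is a normal subgroup of `X` containing `Z` such that `F / Z` is abelian of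
order `D ^ 2`, `D > 1`, and the centraliser of `F` in `X` is `Z`.
-/

set_option autoImplicit false

open NumberField Pool.Agent.H541R3.ART Pool.Agent.W446.AS Pool.Agent.Q7.DB Pool.Agent.Q7.CS
  Pool.Agent.Q7.RL Pool.Agent.Q92.RT Pool.Agent.W353.NF Pool.Agent.H341R2.EC
  Pool.Agent.Q7.SZ ComplexConjugate

/-- Let `M/K` be a solvable Galois extension with group `G`, `n χ` the order of `L(E ⊗ χ, s)` and `r`
the order of `L(E/M, s)` at a point.
(1) If some `L(E ⊗ χ, s)` has a pole at the centre `s = 1`, then some section `X` of `G` has a frame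
`F` of a degree `D ≠ 2` such that `4 D ≤ r`, or `2 D ≤ r` and `X / F` is cyclic, or the centre of `X`
has order two and `2 D ≤ r`, or the centre of `X` has order two, `D ≤ r`, `X / F` is cyclic and `F` is
of plus type (it has `|F| / 2 + D` elements with square one).
(2) No `L(E ⊗ χ, s)` has a pole at `s = 1` if `r ≤ 5`, or if `r ≤ 7` and `108 ∤ |G|`.
(3) Suppose that `L(E/M, s)` has order at most five at `s = 1`, order at most three at the real points
`s > 1` and order at most two at the other points with `Re s ≥ 1`. Then no `L(E ⊗ χ, s)` has a pole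
with `Re s ≥ 1`. -/
theorem Pool.Agent.Results.MP_148101_nt.SolvableArtinTwists.result
    (K M : Type) [Field K] [NumberField K] [Field M] [NumberField M] [Algebra K M] [IsGalois K M]
    [Group.IsSolvable (M ≃ₐ[K] M)]
    (E : WeierstrassCurve K) (hE : E.IsElliptic) (W : WeierstrassCurve (𝓞 K)) (hW : IsModel E W)
    (Λ : SymplecticEquations M W) :
    (Automorphic M W 1 → DegreeTwo M W 1 →
      ∃ (n : ((M ≃ₐ[K] M) → ℂ) → ℤ) (r : IntermediateField K M → ℤ), Orders E W 1 n r ∧
        ((∃ χ ∈ Irr (M ≃ₐ[K] M), n χ < 0) →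
          ∃ (H : Subgroup (M ≃ₐ[K] M)) (X : Type) (_ : Group X) (f : H →* X) (F : Subgroup X)
            (D : ℕ), Function.Surjective f ∧ Frame X F D ∧ D ≠ 2 ∧
            ((4 * D ≤ r ⊤ ∨ (2 * D ≤ r ⊤ ∧ ∃ g, F ⊔ Subgroup.zpowers g = ⊤)) ∨
              (Nat.card (Subgroup.center X) = 2 ∧
                (2 * D ≤ r ⊤ ∨ (D ≤ r ⊤ ∧ (∃ g, F ⊔ Subgroup.zpowers g = ⊤) ∧
                  2 * Nat.card {x : F // x ^ 2 = 1} = Nat.card F + 2 * D))))) ∧
        (r ⊤ ≤ 7 → (6 ≤ r ⊤ → ¬ 108 ∣ Nat.card (M ≃ₐ[K] M)) →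
          ∀ χ ∈ Irr (M ≃ₐ[K] M), 0 ≤ n χ)) ∧
    ((∀ s₀ : ℂ, 1 ≤ s₀.re → Automorphic M W s₀ ∧ DegreeTwo M W s₀ ∧
        ∃ k : ℤ, (k ≤ 2 ∨ (k ≤ 3 ∧ s₀.im = 0) ∨ (k ≤ 5 ∧ s₀ = 1)) ∧
          LOrder (E.map (algebraMap K M)) s₀ k) →
      ∀ χ ∈ Irr (M ≃ₐ[K] M), ∀ s₀ : ℂ, 1 ≤ s₀.re →
        ∃ k : ℤ, 0 ≤ k ∧ HasOrder (twistedL M W χ) s₀ k) := by
  have hcoe : ∀ {x : WithTop ℤ} {k : ℤ}, x = (k : WithTop ℤ) → 0 ≤ x → 0 ≤ k := by
    intro x k h1 h2
    rw [h1] at h2
    exact_mod_cast h2
  refine ⟨fun a h2 => ?_, fun h χ hχ s₀ hs => ?_⟩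
  · obtain ⟨n, r, ho⟩ := exists_orders (M := M) hE hW (by simp) a
    refine ⟨n, r, ho, ?_, ?_⟩
    · obtain ⟨k, hk⟩ := Int.eq_ofNat_of_zero_le (ho.nonneg hE hW (by simp) a)
      have hr : meromorphicOrderAt ((curveData a).Lin ⊥ 1) 1 = ((k : ℕ) : WithTop ℤ) := by
        have h1 := ho.bot hE hW (by simp) a
        rw [hk] at h1
        exact h1
      rintro ⟨χ, hχ, hneg⟩
      by_contra hcon
      have hfree : CFree True k (M ≃ₐ[K] M) := by
        rintro H X _ f hf ⟨F, D, hF, hlt, hobs⟩
        refine hcon ⟨H, X, _, f, F, D, hf, hF, hlt trivial, ?_⟩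
        rw [hk]
        exact_mod_cast hobs
      have h1 := central_solvable (curveData a) (curveData_reflects a) (curveTwo a h2)
        (curveSymp a Λ) hr hfree χ hχ
      exact absurd (hcoe (ho.irr a hχ) h1) (not_le.mpr hneg)
    · intro h7 h108 χ hχ
      obtain ⟨k, hk⟩ := Int.eq_ofNat_of_zero_le (ho.nonneg hE hW (by simp) a)
      have hr : meromorphicOrderAt ((curveData a).Lin ⊥ 1) 1 = ((k : ℕ) : WithTop ℤ) := by
        have h1 := ho.bot hE hW (by simp) a
        rw [hk] at h1
        exact h1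
      exact hcoe (ho.irr a hχ) (central_solvable (curveData a) (curveData_reflects a)
        (curveTwo a h2) (curveSymp a Λ) hr
        (cfree_seven (by omega) (fun h6 => h108 (by omega))) χ hχ)
  · obtain ⟨a, h2, k, hk1, hk⟩ := h s₀ hs
    obtain ⟨n, r, ho⟩ := exists_orders (M := M) hE hW hs a
    have hM := ho.eq_of_lorder_top hE hW hs a hk
    refine ⟨n χ, ?_, ho.twist χ hχ⟩
    obtain ⟨j, hj⟩ := Int.eq_ofNat_of_zero_le (ho.nonneg hE hW hs a)
    have hr : meromorphicOrderAt ((curveData a).Lin ⊥ 1) s₀ = ((j : ℕ) : WithTop ℤ) := by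
      have h1 := ho.bot hE hW hs a
      rw [hj] at h1
      exact h1
    rcases hk1 with h3 | ⟨h3, him⟩ | ⟨h3, hs1⟩
    · refine hcoe (ho.irr a hχ) (artin_solvable True (curveData a)
        (fun _ => ⟨curveTwo a h2⟩) hr ?_ χ hχ)
      rintro H X _ f hf ⟨F, D, hF, hlt, hobs⟩
      have h4 := hF.one_lt
      have h5 := hlt trivial
      rcases hobs with h6 | ⟨h6, -⟩ <;> omega
    · have hconj : conj s₀ = s₀ := Complex.conj_eq_iff_im.mpr him
      exact hcoe (ho.irr a hχ) (real_solvable True hconj (curveData a) (curveData_reflects a)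
        (fun _ => ⟨curveTwo a h2⟩) hr (rfree_seven (by omega) (fun h4 => by omega)
          (fun h6 => by omega)) χ hχ)
    · subst hs1
      exact hcoe (ho.irr a hχ) (central_solvable (curveData a) (curveData_reflects a)
        (curveTwo a h2) (curveSymp a Λ) hr (cfree_seven (by omega) (fun h6 => by omega)) χ hχ)
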